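import Pool.Agent.helper35.DR.SpecK

set_option autoImplicit false

namespace Pool.Agent.DR

open Pool.Agent.helper58.DC Pool.Agent.DI

open Classical in
theorem KCM (hKSC : KSC_stmt) : KCM_stmt := by
  intro Q _ _ N β hβ hcomm σ k hP
  obtain ⟨hoff, ⟨V, _, _, _, S, hS1, hSm, hk, hσ⟩, hnorm⟩ := hP
  have hcardpos : 0 < Nat.card N := Nat.card_pos
  -- the norm in terms of traces
  have hnorm' : ∑ᶠ n ∈ (N : Set Q), LinearMap.trace ℂ V (S n) * LinearMap.trace ℂ V (S n⁻¹) *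
      ((β n n⁻¹ : ℂˣ) : ℂ)⁻¹ = Nat.card N := by
    rw [← hnorm]
    apply finsum_mem_congr rfl
    intro n hn
    rw [hσ n hn, hσ n⁻¹ (inv_mem hn)]
  have hsc : ∀ n ∈ N, ∃ c : ℂ, S n = c • (1 : Module.End ℂ V) := by
    intro n hn
    apply hKSC Q N β hβ V S hS1 hSm hnorm' (S n)
    intro n' hn'
    rw [hSm n hn n' hn', hSm n' hn' n hn, (hcomm n hn n' hn').1, (hcomm n hn n' hn').2]
  choose! c hc using hsc
  have htr : ∀ n ∈ N, LinearMap.trace ℂ V (S n) = c n * k := by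
    intro n hn
    rw [hc n hn, map_smul, LinearMap.trace_one, hk, smul_eq_mul]
  have hsum : ∑ᶠ n ∈ (N : Set Q), (c n * c n⁻¹ * ((β n n⁻¹ : ℂˣ) : ℂ)⁻¹) * (k * k : ℂ) =
      Nat.card N := by
    rw [← hnorm']
    apply finsum_mem_congr rfl
    intro n hn
    rw [htr n hn, htr n⁻¹ (inv_mem hn)]
    ring
  have hk0 : k ≠ 0 := by
    rintro rfl
    simp only [Nat.cast_zero, mul_zero, finsum_mem_zero] at hsum
    have : (Nat.card N : ℂ) ≠ 0 := Nat.cast_ne_zero.2 hcardpos.ne'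
    exact this hsum.symm
  have hnt : Nontrivial V := by
    apply Module.nontrivial_of_finrank_pos (R := ℂ)
    rw [hk]
    exact Nat.pos_of_ne_zero hk0
  have hone : (1 : Module.End ℂ V) ≠ 0 := one_ne_zero
  have hinj : ∀ a b : ℂ, a • (1 : Module.End ℂ V) = b • (1 : Module.End ℂ V) → a = b :=
    fun a b h => smul_left_injective ℂ hone h
  have hmul : ∀ n ∈ N, ∀ n' ∈ N, c n * c n' = ((β n n' : ℂˣ) : ℂ) * c (n * n') := by
    intro n hn n' hn'
    apply hinj
    have h := hSm n hn n' hn'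
    rw [hc n hn, hc n' hn', hc (n * n') (mul_mem hn hn'), smul_mul_smul_comm, one_mul,
      smul_smul] at h
    exact h
  have hc1 : c 1 = 1 := by
    apply hinj
    rw [← hc 1 (one_mem N), hS1, one_smul]
  have hci : ∀ n ∈ N, c n * c n⁻¹ = ((β n n⁻¹ : ℂˣ) : ℂ) := by
    intro n hn
    rw [hmul n hn n⁻¹ (inv_mem hn), mul_inv_cancel, hc1, mul_one]
  have hc0 : ∀ n ∈ N, c n ≠ 0 := by
    intro n hn h
    have := hci n hn
    rw [h, zero_mul] at this
    exact Units.ne_zero _ this.symm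
  have hkk : ((k * k : ℕ) : ℂ) = 1 := by
    have h1 : ∑ᶠ n ∈ (N : Set Q), (c n * c n⁻¹ * ((β n n⁻¹ : ℂˣ) : ℂ)⁻¹) * (k * k : ℂ) =
        ∑ᶠ n ∈ (N : Set Q), (k * k : ℂ) := by
      apply finsum_mem_congr rfl
      intro n hn
      rw [hci n hn, mul_inv_cancel₀ (Units.ne_zero _), one_mul]
    rw [h1, finsum_mem_eq_finite_toFinset_sum _ (Set.toFinite (N : Set Q)), Finset.sum_const,
      nsmul_eq_mul] at hsum
    have h2 : ((Set.toFinite (N : Set Q)).toFinset.card : ℂ) = (Nat.card N : ℂ) := by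
      congr 1
      rw [← Set.ncard_eq_toFinset_card]
      rfl
    rw [h2] at hsum
    have h3 : (Nat.card N : ℂ) ≠ 0 := Nat.cast_ne_zero.2 hcardpos.ne'
    have := mul_left_cancel₀ h3 (hsum.trans (mul_one _).symm)
    push_cast
    exact this
  have hk1 : k = 1 := by
    have h : k * k = 1 := by exact_mod_cast hkk
    exact Nat.eq_one_of_mul_eq_one_right h
  refine ⟨hk1, fun n => if h : n ∈ N then Units.mk0 (c n) (hc0 n h) else 1, ?_, ?_⟩
  · intro n hn
    beta_reduce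
    rw [dif_pos hn, Units.val_mk0, hσ n hn, htr n hn, hk1, Nat.cast_one, mul_one]
  · intro n hn n' hn'
    beta_reduce
    rw [dif_pos hn, dif_pos hn', dif_pos (mul_mem hn hn')]
    apply Units.ext
    simp only [Units.val_mul, Units.val_mk0]
    exact hmul n hn n' hn'

end Pool.Agent.DR
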